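import Pool.Agent.T6.H66.PS.Sub

set_option autoImplicit false

open Filter Topology Set Metric

namespace Pool.Agent.T6.H66.QR

open Pool.Agent.H721R2 Pool.Agent.T6.H66.PS

theorem metric_chain {X : Type*} [MetricSpace X] [CompactSpace X] [ConnectedSpace X] {η : ℝ}
    (hη : 0 < η) : ∃ N : ℕ, ∀ x y : X, Chain (fun a b : X => dist a b < η) N x y := by
  classical
  obtain ⟨x₀⟩ : Nonempty X := inferInstance
  have hr : ∀ x : X, dist x x < η := fun x => by rw [dist_self]; exact hη
  set A : Set X := {y | ∃ n, Chain (fun a b : X => dist a b < η) n x₀ y} with hA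
  have hstep : ∀ y ∈ A, ∀ z, dist y z < η → z ∈ A := by
    rintro y ⟨n, hn⟩ z hz
    exact ⟨n + 1, hn.trans (Chain.single hz)⟩
  have hcl : IsClopen A := by
    constructor
    · rw [← isOpen_compl_iff, isOpen_iff_mem_nhds]
      intro y hy
      refine mem_of_superset (ball_mem_nhds y hη) fun z hz hzA => hy (hstep z hzA y hz)
    · rw [isOpen_iff_mem_nhds]
      intro y hy
      refine mem_of_superset (ball_mem_nhds y hη) fun z hz => hstep y hy z ?_
      rw [dist_comm]
      exact hz
  have hAu : A = univ := by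
    rcases isClopen_iff.mp hcl with h6 | h6
    · exact absurd (show x₀ ∈ A from ⟨0, Chain.refl x₀⟩) (by rw [h6]; simp)
    · exact h6
  have hn : ∀ y, ∃ n, Chain (fun a b : X => dist a b < η) n x₀ y := fun y => by
    have : y ∈ A := by rw [hAu]; trivial
    exact this
  choose n hn using hn
  obtain ⟨T, -, hT⟩ := (isCompact_univ : IsCompact (univ : Set X)).elim_nhds_subcover
    (fun x => ball x η) (fun x _ => ball_mem_nhds x hη)
  have h0 : ∀ y, Chain (fun a b : X => dist a b < η) (T.sup n + 1) x₀ y := by
    intro y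
    have := hT (mem_univ y)
    rw [mem_iUnion₂] at this
    obtain ⟨z, hz, hy⟩ := this
    rw [mem_ball, dist_comm] at hy
    exact (chain_pad hr (hn z) (Finset.le_sup hz)).trans (Chain.single hy)
  exact ⟨(T.sup n + 1) + (T.sup n + 1), fun x y =>
    ((h0 x).symm (fun a b h => by rw [dist_comm]; exact h)).trans (h0 y)⟩

/-- chains of `T * n` steps are chains of `T` chains of `n` steps -/
theorem chain_block {X : Type*} {R : X → X → Prop} (T n : ℕ) {x y : X} (h : Chain R (T * n) x y) :
    Chain (Chain R n) T x y := by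
  obtain ⟨c, h0, h1, h2⟩ := h
  refine ⟨fun i => c (i * n), by simpa using h0, h1, fun i hi => ?_⟩
  refine ⟨fun r => c (i * n + r), rfl, ?_, fun r hr => ?_⟩
  · show c (i * n + n) = c ((i + 1) * n)
    rw [add_mul, one_mul]
  · have h3 : i * n + r < T * n := by
      have h4 : (i + 1) * n ≤ T * n := Nat.mul_le_mul_right _ hi
      rw [add_mul, one_mul] at h4
      omega
    exact h2 _ h3

end Pool.Agent.T6.H66.QR
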