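import Pool.Agent.T6.H66.PS.Sub

set_option autoImplicit false

open Filter Topology Set Metric unitInterval

namespace Pool.Agent.T6.H66.QR

open Pool.Agent.H789R2.AN Pool.Agent.H789R2.GP Pool.Agent.H721R2 Pool.Agent.T6.H66.PS

variable {X : Type*} [MetricSpace X]

/-- A leaf that is locally a point is a point. -/
theorem leaf_triv [CompactSpace X] {g : X ≃ₜ X} {c : ℝ} (h : LP g c) (hX : ULC X) {ε : ℝ}
    (hε : 0 < ε) {x : X} (hx : ∀ y, SR g ε x y → y = x) : ∀ y, WS g x y → y = x := by
  intro y hy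
  obtain ⟨γ, h0, h1⟩ := leaf_conn h hX x y hy
  have hcl : IsClopen {t : I | γ t = ⟨x⟩} := by
    refine ⟨isClosed_eq γ.continuous continuous_const, ?_⟩
    rw [isOpen_iff_mem_nhds]
    intro t ht
    have ht' : γ t = ⟨x⟩ := ht
    have h2 := Metric.continuous_iff'.mp γ.continuous t ε hε
    filter_upwards [h2] with s hs
    have h3 : dist (γ t) (γ s) ≤ ε := by rw [dist_comm]; exact hs.le
    have h4 := (SM.dist_le _ _ hε.le).mp h3
    rw [ht'] at h4
    exact SM.ext (hx _ h4)
  have h5 : {t : I | γ t = ⟨x⟩} = univ := by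
    rcases isClopen_iff.mp hcl with h6 | h6
    · exact absurd (show (0 : I) ∈ {t : I | γ t = ⟨x⟩} from h0) (by rw [h6]; simp)
    · exact h6
  have h6 : γ 1 = ⟨x⟩ := by
    have : (1 : I) ∈ {t : I | γ t = ⟨x⟩} := by rw [h5]; trivial
    exact this
  rw [h1] at h6
  exact congrArg SM.val h6

/-- Either all leaves are points or all leaves are uniformly nontrivial. -/
theorem triv_or [CompactSpace X] [ConnectedSpace X] {g : X ≃ₜ X} {c : ℝ} (h : LP g c)
    (hX : ULC X) : (∀ x y, WS g x y → y = x) ∨
      ∀ κ > 0, ∃ ρ > 0, ∀ w, ∃ u, SR g κ w u ∧ ρ ≤ dist w u := by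
  obtain ⟨br, δ, hδ, h2, h3, h4, h5⟩ := exists_br h
  have hc := h.c_pos
  -- moving a nontrivial stable pair
  have move : ∀ x y, SR g (c / 3) x y → dist x y < δ → ∀ τ > 0, ∃ η > 0, ∀ x', dist x x' < η →
      SR g (c / 3) x' (br x' y) ∧ dist (br x' y) y < τ := by
    intro x y hxy hd τ hτ
    obtain ⟨η, hη, h6⟩ := h5 τ hτ
    refine ⟨min η (δ - dist x y), lt_min hη (by linarith), fun x' hx' => ?_⟩
    have hd' : dist x' y < δ := by
      have a1 := dist_triangle_left x' y x
      have a2 := hx'.trans_le (min_le_right _ _)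
      linarith
    refine ⟨(h2 x' y hd').1, ?_⟩
    have h7 : y = br x y := h4 x y y hd hxy (SR_refl _ (by linarith) _)
    have h8 := h6 x' x y y hd' hd (by rw [dist_comm]; exact hx'.trans_le (min_le_left _ _))
      (by rw [dist_self]; exact hη)
    rwa [← h7] at h8
  set N : Set X := {x | ∃ y, y ≠ x ∧ WS g x y} with hN
  have hloc : ∀ x ∈ N, ∀ ε > 0, ∃ y, y ≠ x ∧ SR g ε x y := by
    rintro x ⟨y, hyx, hxy⟩ ε hε
    by_contra hcon
    push Not at hcon
    exact hyx (leaf_triv h hX hε (fun z hz => by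
      by_contra hzx
      exact hcon z hzx hz) y hxy)
  have hopen : IsOpen N := by
    rw [isOpen_iff_mem_nhds]
    intro x hx
    obtain ⟨y, hyx, hxy⟩ := hloc x hx (min (c / 3) (δ / 2)) (by positivity)
    have hxy' := hxy.mono (min_le_left _ _)
    have hd : dist x y < δ := by
      have := SR_d (hxy.mono (min_le_right _ _))
      linarith
    have hpos : 0 < dist x y := dist_pos.mpr hyx.symm
    obtain ⟨η, hη, h6⟩ := move x y hxy' hd (dist x y / 2) (by linarith)
    refine mem_of_superset (ball_mem_nhds x (lt_min hη (half_pos hpos))) fun x' hx' => ?_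
    have hx1 : dist x x' < min η (dist x y / 2) := by rw [dist_comm]; exact hx'
    obtain ⟨h7, h8⟩ := h6 x' (hx1.trans_le (min_le_left _ _))
    refine ⟨br x' y, fun he => ?_, WS.of_SR (h.cS _ _ (h7.mono (by linarith)))⟩
    rw [he] at h8
    have a1 := dist_triangle x x' y
    have a2 := hx1.trans_le (min_le_right _ _)
    linarith
  have hclosed : IsClosed N := by
    rw [← isOpen_compl_iff, isOpen_iff_mem_nhds]
    intro x hx
    have hx0 : ∀ y, WS g x y → y = x := fun y hy => by
      by_contra hyx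
      exact hx ⟨y, hyx, hy⟩
    refine mem_of_superset (ball_mem_nhds x (half_pos hδ)) fun x' hx' => ?_
    have hx1 : dist x x' < δ / 2 := by rw [dist_comm]; exact hx'
    rintro ⟨y, hyx, hy⟩
    have key : ∀ z, dist x z < δ → SR g.symm (c / 3) z x := by
      intro z hz
      obtain ⟨a1, a2⟩ := h2 x z hz
      have a3 := hx0 _ (WS.of_SR (h.cS _ _ (a1.mono (by linarith))))
      rwa [a3] at a2
    refine hyx (leaf_triv h hX (ε := min (c / 3) (δ / 2)) (by positivity) (fun z hz => ?_) y hy)
    have hz1 : dist x z < δ := by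
      have a1 := dist_triangle x x' z
      have a2 := SR_d (hz.mono (min_le_right _ _))
      linarith
    refine (expansive h (hz.mono ((min_le_left _ _).trans (by linarith))) ?_).symm
    exact (SR_tr (key x' (by linarith)) (key z hz1).symm').mono (by linarith)
  rcases isClopen_iff.mp ⟨hclosed, hopen⟩ with h6 | h6
  · left
    intro x y hxy
    by_contra hyx
    have : x ∈ N := ⟨y, hyx, hxy⟩
    rw [h6] at this
    exact this
  · right
    intro κ hκ
    obtain ⟨ρ', hρ', h7⟩ := SR_of_close h hκ
    have hx : ∀ x : X, ∃ y, y ≠ x ∧ SR g (min (min (c / 3) (δ / 2)) (ρ' / 4)) x y := fun x =>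
      hloc x (by rw [h6]; trivial) _ (by positivity)
    choose Y hY1 hY2 using hx
    have hpos : ∀ x, 0 < dist x (Y x) := fun x => dist_pos.mpr (hY1 x).symm
    have hmv : ∀ x, ∃ η > 0, ∀ x', dist x x' < η →
        SR g (c / 3) x' (br x' (Y x)) ∧ dist (br x' (Y x)) (Y x) < dist x (Y x) / 3 := by
      intro x
      refine move x (Y x) ((hY2 x).mono ((min_le_left _ _).trans (min_le_left _ _))) ?_ _
        (by have := hpos x; linarith)
      have := SR_d ((hY2 x).mono ((min_le_left _ _).trans (min_le_right _ _)))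
      linarith
    choose η hη hmv using hmv
    obtain ⟨T, -, hT⟩ := (isCompact_univ : IsCompact (univ : Set X)).elim_nhds_subcover
      (fun x => ball x (min (η x) (dist x (Y x) / 3)))
      (fun x _ => ball_mem_nhds x (lt_min (hη x) (by have := hpos x; linarith)))
    have hTne : T.Nonempty := by
      obtain ⟨x⟩ : Nonempty X := inferInstance
      have := hT (mem_univ x)
      rw [mem_iUnion₂] at this
      obtain ⟨z, hz, -⟩ := this
      exact ⟨z, hz⟩
    obtain ⟨x₀, hx₀, hmin⟩ := T.exists_min_image (fun x => dist x (Y x) / 3) hTne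
    refine ⟨dist x₀ (Y x₀) / 3, by have := hpos x₀; linarith, fun w => ?_⟩
    have := hT (mem_univ w)
    rw [mem_iUnion₂] at this
    obtain ⟨z, hz, hw⟩ := this
    rw [mem_ball, dist_comm] at hw
    obtain ⟨h8, h9⟩ := hmv z w (hw.trans_le (min_le_left _ _))
    have hw2 := hw.trans_le (min_le_right _ _)
    have hzY : dist z (Y z) ≤ ρ' / 4 := SR_d ((hY2 z).mono (min_le_right _ _))
    have hp := hpos z
    refine ⟨br w (Y z), h7 _ _ (h8.mono (by linarith)) ?_, ?_⟩
    · have a1 := dist_triangle4 w z (Y z) (br w (Y z))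
      rw [dist_comm w z, dist_comm (Y z) (br w (Y z))] at a1
      linarith
    · refine (hmin z hz).trans ?_
      have a1 := dist_triangle4 z w (br w (Y z)) (Y z)
      show dist z (Y z) / 3 ≤ dist w (br w (Y z))
      linarith

end Pool.Agent.T6.H66.QR
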