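import Pool.Agent.T6.H66.QR.Move
import Pool.Agent.T6.H66.QR.Conn
import Pool.Agent.T6.H66.QR.Triv

set_option autoImplicit false

open Filter Topology Set Metric

namespace Pool.Agent.T6.H66.QR

open Pool.Agent.H789R2.AN Pool.Agent.H789R2.GP Pool.Agent.H721R2 Pool.Agent.T6.H66.PS

variable {X : Type*} [MetricSpace X]

/-- The image under `g^l` of the unit ball at `x` has radius at most `n`. -/
def Out (g : X ≃ₜ X) (LU : X → X → Prop) (l n : ℕ) (x : X) : Prop :=
  ∀ z, LU x z → Chain LU n (g^[l] x) (g^[l] z)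

/-- The images under `g^l` of the unit balls are `H`-quasi-round. -/
def Rd (g : X ≃ₜ X) (LU : X → X → Prop) (ρ' : ℝ) (l H : ℕ) : Prop :=
  ∀ x y z n, LU x y → LU x z → ¬ SR g.symm ρ' x y → Chain LU n (g^[l] x) (g^[l] y) →
    Chain LU (H * n) (g^[l] x) (g^[l] z)

/-- Quasi-roundness spreads over a connected space: the outer radii are comparable. -/
theorem level [CompactSpace X] [ConnectedSpace X] {g : X ≃ₜ X} {c : ℝ} (h : LP g c) (hX : ULC X)
    (hne : ∀ κ > 0, ∃ ρ > 0, ∀ w, ∃ u, SR g.symm κ w u ∧ ρ ≤ dist w u) :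
    ∃ κ > 0, κ ≤ c / 12 ∧ ∀ ρ > 0, ρ ≤ κ → ∃ ρ' > 0, ρ' ≤ ρ / 2 ∧ ∃ B m l₀ : ℕ, 1 ≤ B ∧
      ∀ LU : X → X → Prop, (∀ x y, LU x y → SR g.symm κ x y) →
      (∀ x y, SR g.symm ρ x y → LU x y) → ∀ l ≥ l₀, ∀ H : ℕ, 1 ≤ H → Rd g LU ρ' l H →
      (∀ x x' n, Out g LU l n x → Out g LU l ((B * H) ^ m * n) x') := by
  obtain ⟨κ₀, hκ₀, hκ₀c, mv⟩ := smove h
  obtain ⟨κ₃, hκ₃, sb⟩ := subd h.symm hX
  have hc := h.c_pos
  set κ := min κ₀ (κ₃ / 3) with hκ
  have hκ0 : 0 < κ := by positivity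
  have k1 : κ ≤ κ₀ := min_le_left _ _
  have k2 : 3 * κ ≤ κ₃ := by
    have : κ ≤ κ₃ / 3 := min_le_right _ _
    linarith
  refine ⟨κ, hκ0, k1.trans hκ₀c, fun ρ hρ hρκ => ?_⟩
  obtain ⟨B, hB⟩ := sb ρ hρ
  obtain ⟨ρ₁, hρ₁, hu⟩ := hne (ρ / 2) (half_pos hρ)
  obtain ⟨η, hη, ρ₃, hρ₃, l₀, hmv⟩ := mv κ hκ0 k1 ρ hρ hρκ ρ₁ hρ₁
  obtain ⟨br, δ, hδ, -, h2, -, -⟩ := exists_br h
  obtain ⟨η₆, hη₆, hbr⟩ := h2 (min η (ρ / 2)) (by positivity)
  obtain ⟨N, hN⟩ := metric_chain (X := X) hη₆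
  refine ⟨min (ρ₁ / 2) (min ρ₃ (ρ / 2)), by positivity, (min_le_right _ _).trans (min_le_right _ _),
    B + 1, 2 * N, l₀, by omega, fun LU hU hU' l hl H hH hR => ?_⟩
  set ρ' := min (ρ₁ / 2) (min ρ₃ (ρ / 2)) with hρ'
  have q1 : ρ' ≤ ρ₁ / 2 := min_le_left _ _
  have q2 : ρ' ≤ ρ₃ := (min_le_right _ _).trans (min_le_left _ _)
  have hUr : ∀ x, LU x x := fun x => hU' x x (SR_refl g.symm hρ.le x)
  -- reversal
  have hrev : ∀ a b n, Chain LU n a b → Chain LU (B * n) b a := by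
    intro a b n hab
    have h5 : Chain (fun a b => LU b a) n b a := by
      obtain ⟨C, h0, h1, hC⟩ := hab
      refine ⟨fun i => C (n - i), by simpa using h1, by simpa using h0, fun i hi => ?_⟩
      have h3 : n - i = (n - (i + 1)) + 1 := by omega
      show LU (C (n - (i + 1))) (C (n - i))
      rw [h3]
      exact hC _ (by omega)
    exact h5.flatten id fun a b hab =>
      (hB _ _ ((hU _ _ hab).symm'.mono (by linarith))).mono hU'
  -- unstable moves
  have umv : ∀ x w n, SR g.symm (ρ / 2) x w → Out g LU l n x →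
      Out g LU l (((B + 1) * H) * n) w := by
    intro x w n hxw hP z hz
    obtain ⟨u, hu1, hu2⟩ := hu w
    have hxw' : LU x w := hU' _ _ (hxw.mono (by linarith))
    have hxu : LU x u := hU' _ _ ((SR_tr hxw hu1).mono (by linarith))
    have hwu : LU w u := hU' _ _ (hu1.mono (by linarith))
    have h5 := (hrev _ _ _ (hP w hxw')).trans (hP u hxu)
    have h6 : ¬ SR g.symm ρ' w u := fun hcon => by
      have := SR_d hcon
      linarith
    have h7 := hR w u z _ hwu hz h6 h5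
    have e : H * (B * n + n) = ((B + 1) * H) * n := by ring
    rwa [e] at h7
  -- stable moves
  have smv : ∀ x' x n, SR g η x' x → Out g LU l n x' → Out g LU l (((B + 1) * H) * n) x := by
    intro x' x n hxx hP z hz
    obtain ⟨u, hu1, hu2⟩ := hu x'
    have hxu : LU x' u := hU' _ _ (hu1.mono (by linarith))
    obtain ⟨y, hy1, hy2, j, hj, hy3⟩ := hmv l hl x x' u hxx hu2 n ((hP u hxu).mono hU)
    have h5 : Chain LU (B * j) (g^[l] x) (g^[l] y) :=
      hy3.flatten id fun a b hab => (hB _ _ (hab.mono k2)).mono hU'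
    have h6 := chain_pad hUr h5 (Nat.mul_le_mul_left B hj)
    have h7 := hR x y z _ (hU' _ _ hy1) hz (fun hcon => hy2 (hcon.mono q2)) h6
    refine chain_pad hUr h7 ?_
    calc H * (B * n) = (B * H) * n := by ring
      _ ≤ ((B + 1) * H) * n := by gcongr; omega
  -- one metric step
  have step : ∀ a b n, dist a b < η₆ → Out g LU l n a →
      Out g LU l (((B + 1) * H) ^ 2 * n) b := by
    intro a b n hab hP
    obtain ⟨h5, h6⟩ := hbr a b hab
    have h7 := smv _ _ _ (h5.mono (min_le_left _ _)) hP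
    have h8 := umv _ _ _ (h6.symm'.mono (min_le_right _ _)) h7
    have e : (B + 1) * H * ((B + 1) * H * n) = ((B + 1) * H) ^ 2 * n := by ring
    rwa [e] at h8
  intro x x' n hP
  obtain ⟨C, h0, h1, hC⟩ := hN x x'
  have key : ∀ i ≤ N, Out g LU l (((B + 1) * H) ^ (2 * i) * n) (C i) := by
    intro i
    induction i with
    | zero => intro _; simpa [h0] using hP
    | succ i ih =>
      intro hi
      have h5 := step _ _ _ (hC i (by omega)) (ih (by omega))
      have e : ((B + 1) * H) ^ 2 * (((B + 1) * H) ^ (2 * i) * n) =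
          ((B + 1) * H) ^ (2 * (i + 1)) * n := by ring
      rwa [e] at h5
  have := key N le_rfl
  rwa [h1] at this

end Pool.Agent.T6.H66.QR
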