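import Pool.Agent.T6.H66.QR.Pin
import Pool.Agent.T6.H66.PS.Man

set_option autoImplicit false
set_option linter.unusedSectionVars false

open Filter Topology Set Metric
open scoped Manifold ContDiff

namespace Pool.Agent.T6.H66.QR

open Pool.Agent.H789R2.AN Pool.Agent.H789R2.GP Pool.Agent.H721R2 Pool.Agent.T6.H66.PS

/-- Quasi-roundness at the scale `𝒰`. -/
def RoundAt {M : Type*} [TopologicalSpace M] (f : M ≃ₜ M) (𝒰 : Set (M × M)) : Prop :=
  ∀ 𝒲 ∈ 𝓝ˢ (diagonal M), ∀ ε > 0, ∃ᶠ l in atTop, ∃ H : ℕ, (H : ℝ) ≤ Real.exp (ε * (l : ℕ)) ∧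
    ∀ x y z n, Stp f.symm 𝒰 x y → Stp f.symm 𝒰 x z → ¬ Stp f.symm 𝒲 x y →
      Chain (Stp f.symm 𝒰) n (f^[l] x) (f^[l] y) →
      Chain (Stp f.symm 𝒰) (H * n) (f^[l] x) (f^[l] z)

theorem pow_arith {H B q n l l' N₁ : ℕ} (hn : 1 ≤ n) (hl : l < n * (l' + 1))
    (hN₁ : (B ^ n) ^ q ≤ 2 ^ N₁) (hl' : 2 * N₁ + 1 ≤ l')
    (hH : (H : ℝ) ≤ Real.exp (Real.log 2 / (2 * n * (q + 1)) * l)) : (B ^ n * H) ^ q ≤ 2 ^ l' := by
  have h1 : H ^ (2 * n * (q + 1)) ≤ 2 ^ l := by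
    have h2 : ((H : ℝ)) ^ (2 * n * (q + 1)) ≤ 2 ^ l := by
      calc ((H : ℝ)) ^ (2 * n * (q + 1))
          ≤ (Real.exp (Real.log 2 / (2 * n * (q + 1)) * l)) ^ (2 * n * (q + 1)) :=
            pow_le_pow_left₀ (by positivity) hH _
        _ = Real.exp (Real.log 2 * l) := by
            rw [← Real.exp_nat_mul]
            congr 1
            have hn0 : (n : ℝ) ≠ 0 := by positivity
            push_cast
            field_simp
        _ = 2 ^ l := by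
            rw [mul_comm, Real.exp_nat_mul, Real.exp_log (by norm_num)]
    exact_mod_cast h2
  have h3 : H ^ (2 * (q + 1)) ≤ 2 ^ (l' + 1) := by
    have h4 : (H ^ (2 * (q + 1))) ^ n ≤ (2 ^ (l' + 1)) ^ n := by
      calc (H ^ (2 * (q + 1))) ^ n = H ^ (2 * n * (q + 1)) := by rw [← pow_mul]; ring_nf
        _ ≤ 2 ^ l := h1
        _ ≤ 2 ^ (n * (l' + 1)) := Nat.pow_le_pow_right (by norm_num) hl.le
        _ = (2 ^ (l' + 1)) ^ n := by rw [← pow_mul]; ring_nf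
    exact (Nat.pow_le_pow_iff_left (by omega)).mp h4
  have h5 : (H ^ q) ^ 2 ≤ 2 ^ (l' + 1) := by
    rcases Nat.eq_zero_or_pos H with h6 | h6
    · rw [h6, ← pow_mul]
      exact (pow_le_one₀ (by norm_num) (by norm_num)).trans Nat.one_le_two_pow
    · refine le_trans ?_ h3
      rw [← pow_mul]
      exact Nat.pow_le_pow_right h6 (by nlinarith)
  have h7 : ((B ^ n * H) ^ q) ^ 2 ≤ (2 ^ l') ^ 2 := by
    calc ((B ^ n * H) ^ q) ^ 2 = ((B ^ n) ^ q) ^ 2 * (H ^ q) ^ 2 := by rw [mul_pow, mul_pow]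
      _ ≤ (2 ^ N₁) ^ 2 * 2 ^ (l' + 1) := Nat.mul_le_mul (Nat.pow_le_pow_left hN₁ 2) h5
      _ = 2 ^ (2 * N₁ + (l' + 1)) := by rw [← pow_mul, ← pow_add]; ring_nf
      _ ≤ 2 ^ (l' * 2) := Nat.pow_le_pow_right (by norm_num) (by omega)
      _ = (2 ^ l') ^ 2 := by rw [pow_mul]
  exact (Nat.pow_le_pow_iff_left (by norm_num)).mp h7

section sys

variable {E : Type*} [NormedAddCommGroup E] [NormedSpace ℝ E] [FiniteDimensional ℝ E]
  {G : Type*} [NormedAddCommGroup G] [NormedSpace ℝ G]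
  {M : Type*} [MetricSpace M] [CompactSpace M] [ConnectedSpace M] [ChartedSpace E M]

theorem sys_round (S : HypSys M G) (F : M ≃ₜ M) (n : ℕ) (hn : 1 ≤ n)
    (hg : ∀ k x, S.g^[k] x = F^[n * k] x) (hg' : ∀ k x, S.g.symm^[k] x = F.symm^[n * k] x)
    (hR : ∀ 𝒱 ∈ 𝓝ˢ (diagonal M), ∃ 𝒰 ∈ 𝓝ˢ (diagonal M), 𝒰 ⊆ 𝒱 ∧ RoundAt F 𝒰) :
    ∃ π : E → M, IsCoveringMap π ∧ Function.Surjective π := by
  have : ProperSpace E := FiniteDimensional.proper_real E
  obtain ⟨c, hLP⟩ := exists_LP S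
  have hX : ULC M := ulc_of_charted (X := M) (E := E)
  have hgF : ∀ x, F (S.g x) = S.g (F x) := fun x => by
    have h1 := hg 1 x
    have h2 := hg 1 (F x)
    simp only [Function.iterate_one, mul_one] at h1 h2
    rw [h1, h2]
    exact (Function.iterate_succ_apply' F n x).symm.trans (Function.iterate_succ_apply F n x)
  obtain ⟨κ, hκ, hall⟩ := all_Lf hLP hX
  obtain ⟨κr, hκr, hrd⟩ := cpin_of_round hLP hX
  obtain ⟨κu, hκu, sbu⟩ := subd hLP.symm hX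
  obtain ⟨κu', hκu', mu⟩ := map_SM (g := S.g.symm) (φ := F) (comm_symm_right hgF) κu hκu
  set r := min κ (min κr κu') with hr
  have hr0 : 0 < r := by positivity
  have r1 : r ≤ κ := min_le_left _ _
  have r2 : r ≤ κr := (min_le_right _ _).trans (min_le_left _ _)
  have r3 : r ≤ κu' := (min_le_right _ _).trans (min_le_right _ _)
  have hball : ∀ r > 0, {p : M × M | dist p.1 p.2 < r} ∈ 𝓝ˢ (diagonal M) := fun r hr => by
    rw [nhdsSet_diagonal_eq_uniformity]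
    exact Metric.dist_mem_uniformity hr
  obtain ⟨𝒰, h𝒰, hsub, hround⟩ := hR _ (hball r hr0)
  rw [nhdsSet_diagonal_eq_uniformity] at h𝒰
  obtain ⟨ρ, hρ, hρ𝒰⟩ := Metric.mem_uniformity_dist.mp h𝒰
  have hSS : ∀ x y, Stp F 𝒰 x y → SR S.g r x y := fun x y hxy k => by
    rw [hg, hg]; exact (hsub (hxy _)).le
  have hUU : ∀ x y, Stp F.symm 𝒰 x y → SR S.g.symm r x y := fun x y hxy k => by
    rw [hg', hg']; exact (hsub (hxy _)).le
  have hres : ∀ (G H : M ≃ₜ M), (∀ k x, H^[k] x = G^[n * k] x) → ∃ ρ' > 0, ∀ x y,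
      SR H ρ' x y → Stp G 𝒰 x y := by
    intro G H hGH
    obtain ⟨η, hη, h1⟩ := T1_unif G n hρ
    refine ⟨η / 2, half_pos hη, fun x y hxy k => hρ𝒰 ?_⟩
    have h2 := Nat.div_add_mod k n
    have h3 := Nat.mod_lt k (show 0 < n by omega)
    have h4 : ∀ z : M, G^[k] z = G^[k % n] (H^[k / n] z) := fun z => by
      rw [hGH, ← Function.iterate_add_apply]
      congr 1
      omega
    rw [h4, h4]
    exact h1 _ h3.le _ _ (lt_of_le_of_lt (hxy _) (half_lt_self hη))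
  obtain ⟨ρs, hρs, hS'⟩ := hres F S.g hg
  obtain ⟨ρu, hρu, hU'⟩ := hres F.symm S.g.symm hg'
  obtain ⟨Bu, hBu⟩ := sbu ρu hρu
  have hUr : ∀ x, Stp F.symm 𝒰 x x := fun x => hU' x x (SR_refl _ hρu.le x)
  set B := max 1 Bu with hB
  have hB1 : 1 ≤ B := le_max_left _ _
  have hBL : ∀ x y, Stp F.symm 𝒰 x y → Chain (Stp F.symm 𝒰) B (F x) (F y) := fun x y hxy =>
    chain_pad hUr ((hBu _ _ (mu _ _ ((hUU x y hxy).mono r3))).mono hU') (le_max_right _ _)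
  have hUf : ∀ x y, Stp F.symm 𝒰 x y → Stp F.symm 𝒰 (F.symm x) (F.symm y) := by
    intro x y hxy k
    have := hxy (k + 1)
    rwa [Function.iterate_succ_apply, Function.iterate_succ_apply] at this
  have hRnd : Rnd S.g (Stp F.symm 𝒰) := by
    intro ρ' hρ' q
    obtain ⟨N₁, hN₁⟩ : ∃ N₁, (B ^ n) ^ q ≤ 2 ^ N₁ := ⟨_, Nat.lt_two_pow_self.le⟩
    rw [frequently_atTop]
    intro a
    obtain ⟨l, hl, H, hH, hQ⟩ := (frequently_atTop.mp (hround _ (hball ρ' hρ')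
      (Real.log 2 / (2 * n * (q + 1))) (by
        have := Real.log_pos (by norm_num : (1 : ℝ) < 2)
        positivity))) (n * (a + 2 * N₁ + 1))
    have hl1 : a + 2 * N₁ + 1 ≤ l / n := by
      rw [Nat.le_div_iff_mul_le (by omega), mul_comm]
      exact hl
    have hl2 : l < n * (l / n + 1) := Nat.lt_mul_div_succ l (by omega)
    have hl3 := Nat.div_add_mod l n
    have hl4 := Nat.mod_lt l (show 0 < n by omega)
    refine ⟨l / n, by omega, B ^ n * H, pow_arith hn hl2 hN₁ (by omega) hH, ?_⟩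
    intro x y z N hxy hxz hnxy hc
    have e : ∀ v : M, F^[l] v = F^[l % n] (S.g^[l / n] v) := fun v => by
      rw [hg, ← Function.iterate_add_apply]
      congr 1
      omega
    have h5 : Chain (Stp F.symm 𝒰) (B ^ (l % n) * N) (F^[l] x) (F^[l] y) := by
      rw [e, e]
      exact chain_iter F hBL _ hc
    have h6 := hQ x y z _ hxy hxz (fun hcon => hnxy fun k => by
      rw [hg', hg']
      exact (hcon _).le) h5
    have h7 : Chain (Stp F.symm 𝒰) (H * (B ^ (l % n) * N)) (S.g^[l / n] x) (S.g^[l / n] z) := by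
      have h8 := h6.map (R' := Stp F.symm 𝒰) (F.symm^[l % n])
        (fun a b hab => inv_iterate hUf _ hab)
      rwa [e, e, iterL, iterL] at h8
    refine chain_pad hUr h7 ?_
    calc H * (B ^ (l % n) * N) = B ^ (l % n) * (H * N) := by ring
      _ ≤ B ^ n * (H * N) := Nat.mul_le_mul_right _ (Nat.pow_le_pow_right hB1 hl4.le)
      _ = B ^ n * H * N := by ring
  have hcp : CPin S.g (Stp F 𝒰) (Stp F.symm 𝒰) :=
    hrd _ _ (fun x y hxy => (hSS x y hxy).mono r2) ⟨ρs, hρs, hS'⟩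
      (fun x y hxy => (hUU x y hxy).mono r2) ⟨ρu, hρu, hU'⟩ hRnd
  have hLf := hall (Stp F 𝒰) (Stp F.symm 𝒰) (fun x y hxy => (hSS x y hxy).mono r1) ⟨ρs, hρs, hS'⟩
    (fun x y hxy => (hUU x y hxy).mono r1) ⟨ρu, hρu, hU'⟩ hcp
  obtain ⟨π, hπ⟩ := cov_of_Lf (E := E) S hLP hLf
  exact ⟨π, hπ, covering_surj hπ⟩

end sys

section manifold

variable {E : Type*} [NormedAddCommGroup E] [NormedSpace ℝ E] [FiniteDimensional ℝ E]
  {M : Type*} [TopologicalSpace M] [T2Space M] [CompactSpace M] [ConnectedSpace M]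
  [ChartedSpace E M] [IsManifold 𝓘(ℝ, E) ∞ M]

/-- **Quasi-round unstable (or stable) balls imply the covering by Euclidean space.** -/
theorem man_round (f : Diffeomorph 𝓘(ℝ, E) 𝓘(ℝ, E) M M 1)
    (Es Eu : ∀ x : M, Submodule ℝ (TangentSpace 𝓘(ℝ, E) x)) (hA : IsAnosov f Es Eu)
    (hR : (∀ 𝒱 ∈ 𝓝ˢ (diagonal M), ∃ 𝒰 ∈ 𝓝ˢ (diagonal M), 𝒰 ⊆ 𝒱 ∧ RoundAt f.toHomeomorph 𝒰) ∨
      ∀ 𝒱 ∈ 𝓝ˢ (diagonal M), ∃ 𝒰 ∈ 𝓝ˢ (diagonal M), 𝒰 ⊆ 𝒱 ∧
        RoundAt f.toHomeomorph.symm 𝒰) :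
    ∃ π : E → M, IsCoveringMap π ∧ Function.Surjective π := by
  obtain ⟨m, e, he, hemb, hinj⟩ := exists_embedding_euclidean_of_compact (I := 𝓘(ℝ, E)) (M := M)
  let _ : MetricSpace M := hemb.isEmbedding.comapMetricSpace e
  have hiso : ∀ x y : M, dist x y = ‖e x - e y‖ := fun x y => dist_eq_norm (e x) (e y)
  have he1 : ContMDiff 𝓘(ℝ, E) (𝓡 m) 1 e := he.of_le (by simp)
  obtain ⟨n, S, hn, hSg⟩ := exists_sys_pos hiso he1 hinj f Es Eu hA
  set F : M ≃ₜ M := f.toHomeomorph with hF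
  have hg : ∀ k x, S.g^[k] x = F^[n * k] x := fun k x => by
    rw [hSg, Function.iterate_mul]; rfl
  have hg' : ∀ k x, S.g.symm^[k] x = F.symm^[n * k] x := fun k x => by
    rw [hSg, Function.iterate_mul]; rfl
  rcases hR with hR | hR
  · exact sys_round S F n hn hg hg' hR
  · exact sys_round S.symm F.symm n hn hg' hg hR

end manifold

end Pool.Agent.T6.H66.QR
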