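import Pool.Agent.T6.H66.PS.Sub

set_option autoImplicit false

open Filter Topology Set Metric

namespace Pool.Agent.T6.H66.QR

open Pool.Agent.H789R2.AN Pool.Agent.H789R2.GP Pool.Agent.H721R2 Pool.Agent.T6.H66.PS

variable {X : Type*} [MetricSpace X]

/-- Pulling back a small step makes it tiny. -/
theorem tiny_back {g : X ≃ₜ X} {c : ℝ} (h : LP g c) {ρ : ℝ} {l : ℕ}
    (hl : c * (1 / 2 : ℝ) ^ l ≤ ρ) {x y : X} (hxy : SR g.symm c x y) :
    SR g.symm ρ (g.symm^[l] x) (g.symm^[l] y) := by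
  intro t
  rw [← Function.iterate_add_apply, ← Function.iterate_add_apply]
  refine (h.cU _ _ hxy _).trans (le_trans ?_ hl)
  have hc := h.c_pos
  refine mul_le_mul_of_nonneg_left ?_ hc.le
  exact pow_le_pow_of_le_one (by norm_num) (by norm_num) (by omega)

/-- Moving a chain in the unstable leaf of `g^l x'`, that ends at a point which is not too close at
time `0`, to the leaf of `g^l x`, for a stably close point `x`. -/
theorem smove [CompactSpace X] {g : X ≃ₜ X} {c : ℝ} (h : LP g c) : ∃ κ₀ > 0, κ₀ ≤ c / 12 ∧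
    ∀ κ > 0, κ ≤ κ₀ → ∀ ρ > 0, ρ ≤ κ → ∀ ρ₁ > 0, ∃ η > 0, ∃ ρ₃ > 0, ∃ l₀ : ℕ,
    ∀ l ≥ l₀, ∀ x x' u' : X,
      SR g η x' x → ρ₁ ≤ dist x' u' →
      ∀ n, Chain (SR g.symm κ) n (g^[l] x') (g^[l] u') →
      ∃ y, SR g.symm ρ x y ∧ ¬ SR g.symm ρ₃ x y ∧
        ∃ j ≤ n, Chain (SR g.symm (3 * κ)) j (g^[l] x) (g^[l] y) := by
  classical
  obtain ⟨br, δ, hδ, -, h2, h3, h4⟩ := exists_br h
  have hc := h.c_pos
  refine ⟨min (c / 12) (δ / 4), by positivity, min_le_left _ _,
    fun κ hκ0 hκ ρ hρ hρκ ρ₁ hρ₁ => ?_⟩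
  have k1 : κ ≤ c / 12 := hκ.trans (min_le_left _ _)
  have k2 : κ ≤ δ / 4 := hκ.trans (min_le_right _ _)
  obtain ⟨η₁, hη₁, hbr⟩ := h2 ρ hρ
  set ρ₂ := min (min (ρ₁ / 2) (η₁ / 8)) (min (c / 12) (δ / 8)) with hρ₂
  have hρ₂0 : 0 < ρ₂ := by positivity
  have r1 : ρ₂ ≤ ρ₁ / 2 := (min_le_left _ _).trans (min_le_left _ _)
  have r2 : ρ₂ ≤ η₁ / 8 := (min_le_left _ _).trans (min_le_right _ _)
  have r3 : ρ₂ ≤ c / 12 := (min_le_right _ _).trans (min_le_left _ _)
  have r4 : ρ₂ ≤ δ / 8 := (min_le_right _ _).trans (min_le_right _ _)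
  obtain ⟨ρ₂', hρ₂', hclose⟩ := SR_of_close h.symm hρ₂0
  obtain ⟨η₅, hη₅, hcont⟩ := h4 ρ₂' hρ₂'
  set η := min (η₁ / 4) (min (δ / 4) (c / 3)) with hη
  have hη0 : 0 < η := by positivity
  have e1 : η ≤ η₁ / 4 := min_le_left _ _
  have e2 : η ≤ δ / 4 := (min_le_right _ _).trans (min_le_left _ _)
  have e3 : η ≤ c / 3 := (min_le_right _ _).trans (min_le_right _ _)
  obtain ⟨l₀, hl₀⟩ := pow_half_small c hρ₂0
  refine ⟨η, hη0, η₅ / 2, by linarith, l₀, fun l hl x x' u' hxx hxu n hn => ?_⟩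
  obtain ⟨C, hC0, hCn, hC⟩ := hn
  let y' : ℕ → X := fun i => g.symm^[l] (C i)
  have hy'0 : y' 0 = x' := by show g.symm^[l] (C 0) = x'; rw [hC0, iterL]
  have hy'n : y' n = u' := by show g.symm^[l] (C n) = u'; rw [hCn, iterL]
  have htiny : ∀ i < n, SR g.symm ρ₂ (y' i) (y' (i + 1)) := fun i hi =>
    tiny_back h (hl₀ l hl) ((hC i hi).mono (by linarith))
  have hex : ∃ i, ¬ SR g.symm ρ₂ x' (y' i) := ⟨n, fun hcon => by
    have := SR_d hcon
    rw [hy'n] at this
    linarith⟩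
  set j := Nat.find hex with hj
  have hjn : j ≤ n := Nat.find_min' hex (fun hcon => by
    have := SR_d hcon
    rw [hy'n] at this
    linarith)
  have hjs : ¬ SR g.symm ρ₂ x' (y' j) := Nat.find_spec hex
  have hlt : ∀ i < j, SR g.symm ρ₂ x' (y' i) := fun i hi => by
    by_contra hcon
    exact Nat.find_min hex hi hcon
  have hle : ∀ i ≤ j, SR g.symm (2 * ρ₂) x' (y' i) := by
    intro i hi
    rcases Nat.eq_or_lt_of_le hi with h5 | h5
    · rcases Nat.eq_zero_or_pos i with h6 | h6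
      · rw [h6, hy'0]
        exact SR_refl _ (by linarith) _
      · have h7 := hlt (i - 1) (by omega)
        have h8 := htiny (i - 1) (by omega)
        rw [Nat.sub_add_cancel h6] at h8
        exact (SR_tr h7 h8).mono (by linarith)
    · exact (hlt i h5).mono (by linarith)
  have hdx : dist x' x ≤ η := SR_d hxx
  have hd : ∀ i ≤ j, dist (y' i) x < η₁ ∧ dist (y' i) x < δ := by
    intro i hi
    have a1 := SR_d (hle i hi)
    have a2 := dist_triangle_left (y' i) x x'
    constructor <;> linarith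
  let y : ℕ → X := fun i => br (y' i) x
  have hy : ∀ i ≤ j, SR g ρ (y' i) (y i) ∧ SR g.symm ρ x (y i) := fun i hi =>
    hbr _ _ (hd i hi).1
  have hy0 : y 0 = x := by
    show br (y' 0) x = x
    rw [hy'0]
    exact (h3 _ _ _ (by linarith) (hxx.mono e3) (SR_refl _ (by linarith) _)).symm
  refine ⟨y j, (hy j le_rfl).2, fun hcon => hjs ?_, j, hjn, fun i => g^[l] (y i), ?_, rfl, ?_⟩
  · -- the end is not close
    have b1 : dist x (y j) < η₅ := lt_of_le_of_lt (SR_d hcon) (by linarith)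
    have b2 : dist (y j) x' < δ := by
      have a1 := SR_d (hy j le_rfl).1
      have a2 := SR_d (hle j le_rfl)
      have a3 := dist_triangle_left (y j) x' (y' j)
      rw [dist_comm (y' j) x'] at a3
      linarith
    have b3 : y' j = br (y j) x' := h3 _ _ _ b2 ((hy j le_rfl).1.symm'.mono (by linarith))
      ((hle j le_rfl).mono (by linarith))
    have b4 : x' = br x x' := h3 _ _ _ (by rw [dist_comm]; linarith) (hxx.symm'.mono e3)
      (SR_refl _ (by linarith) _)
    refine hclose _ _ ((hle j le_rfl).mono (by linarith)) ?_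
    have b5 := hcont x (y j) x' x' (by rw [dist_comm]; linarith) b2 b1
      (by rw [dist_self]; exact hη₅)
    rw [← b3, ← b4] at b5
    exact b5
  · show g^[l] (y 0) = g^[l] x
    rw [hy0]
  · intro i hi t
    show dist (g.symm^[t] (g^[l] (y i))) (g.symm^[t] (g^[l] (y (i + 1)))) ≤ 3 * κ
    rcases le_total t l with ht | ht
    · have e : ∀ v : X, g.symm^[t] (g^[l] v) = g^[l - t] v := fun v => by
        have := T1_iter_sub g.symm ht v
        simpa using this
      have e' : ∀ i, g^[l - t] (y' i) = g.symm^[t] (C i) := fun i => by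
        rw [← e]
        show g.symm^[t] (g^[l] (g.symm^[l] (C i))) = _
        rw [iterR]
      rw [e, e]
      have a1 := (hy i hi.le).1 (l - t)
      have a2 := (hy (i + 1) hi).1 (l - t)
      have a3 := hC i (by omega) t
      rw [← e', ← e'] at a3
      have a4 := dist_triangle4 (g^[l - t] (y i)) (g^[l - t] (y' i)) (g^[l - t] (y' (i + 1)))
        (g^[l - t] (y (i + 1)))
      rw [dist_comm (g^[l - t] (y i)) (g^[l - t] (y' i))] at a4
      linarith
    · have e : ∀ v : X, g.symm^[t] (g^[l] v) = g.symm^[t - l] v := fun v => by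
        have := T1_iter_add g.symm ht v
        simpa using this
      rw [e, e]
      have a1 := (hy i hi.le).2 (t - l)
      have a2 := (hy (i + 1) hi).2 (t - l)
      have a3 := dist_triangle_left (g.symm^[t - l] (y i)) (g.symm^[t - l] (y (i + 1)))
        (g.symm^[t - l] x)
      linarith

end Pool.Agent.T6.H66.QR
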