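import Pool.Agent.T6.H66.QR.Level
import Pool.Agent.T6.H66.PS.All

set_option autoImplicit false

open Filter Topology Set Metric

namespace Pool.Agent.T6.H66.QR

open Pool.Agent.H789R2.AN Pool.Agent.H789R2.GP Pool.Agent.H721R2 Pool.Agent.T6.H66.PS

variable {X : Type*} [MetricSpace X]

theorem chain_contr {g : X ≃ₜ X} {c : ℝ} (h : LP g c) {N : ℕ} {x y : X}
    (hxy : Chain (SR g c) N x y) {ρ : ℝ} {l : ℕ} (hl : N * (c * (1 / 2 : ℝ) ^ l) ≤ ρ) :
    SR g ρ (g^[l] x) (g^[l] y) := by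
  obtain ⟨C, h0, h1, hC⟩ := hxy
  have hc := h.c_pos
  intro t
  rw [← Function.iterate_add_apply, ← Function.iterate_add_apply]
  have key : ∀ i ≤ N, dist (g^[t + l] (C 0)) (g^[t + l] (C i)) ≤ i * (c * (1 / 2 : ℝ) ^ l) := by
    intro i
    induction i with
    | zero => intro _; simp
    | succ i ih =>
      intro hi
      have b1 := ih (by omega)
      have b2 := h.cS _ _ (hC i (by omega)) (t + l)
      have b3 : c * (1 / 2 : ℝ) ^ (t + l) ≤ c * (1 / 2 : ℝ) ^ l :=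
        mul_le_mul_of_nonneg_left
          (pow_le_pow_of_le_one (by norm_num) (by norm_num) (by omega)) hc.le
      have b4 := dist_triangle (g^[t + l] (C 0)) (g^[t + l] (C i)) (g^[t + l] (C (i + 1)))
      push_cast
      linarith
  have := key N le_rfl
  rw [h0, h1] at this
  exact this.trans hl

/-- Subexponential quasi-roundness of the images of the unit balls. -/
def Rnd (g : X ≃ₜ X) (LU : X → X → Prop) : Prop :=
  ∀ ρ' > 0, ∀ q : ℕ, ∃ᶠ l in atTop, ∃ H : ℕ, H ^ q ≤ 2 ^ l ∧ Rd g LU ρ' l H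

/-- The inner radii. -/
theorem inner {g : X ≃ₜ X} {c : ℝ} (h : LP g c) {κ ρ ρ' : ℝ} (hκ : κ ≤ c) (hρ : 0 < ρ)
    (hρ' : ρ' ≤ ρ / 2) {LU : X → X → Prop} (hU : ∀ x y, LU x y → SR g.symm κ x y)
    (hU' : ∀ x y, SR g.symm ρ x y → LU x y) {l H W S : ℕ} (hl : c * (1 / 2 : ℝ) ^ l ≤ ρ / 2)
    (hR : Rd g LU ρ' l H) (hS : ∀ x n, Out g LU l n x → S ≤ W * n) {n : ℕ} (hn : W * (H * n) < S)
    {x y : X} (hxy : Chain LU n (g^[l] x) (g^[l] y)) : LU x y := by
  obtain ⟨C, h0, h1, hC⟩ := hxy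
  have key : ∀ i ≤ n, SR g.symm (ρ / 2) x (g.symm^[l] (C i)) := by
    intro i
    induction i with
    | zero =>
      intro _
      rw [h0, iterL]
      exact SR_refl _ (by linarith) _
    | succ i ih =>
      intro hi
      have h5 := tiny_back h hl ((hU _ _ (hC i (by omega))).mono hκ)
      have h6 := hU' _ _ ((SR_tr (ih (by omega)) h5).mono (by linarith))
      by_contra hcon
      have h7 : Out g LU l (H * (i + 1)) x := fun z hz => by
        refine hR x _ z (i + 1) h6 hz (fun h8 => hcon (h8.mono hρ')) ?_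
        rw [iterR]
        exact ⟨C, h0, rfl, fun r hr => hC r (by omega)⟩
      have h8 := hS x _ h7
      have h9 : W * (H * (i + 1)) ≤ W * (H * n) :=
        Nat.mul_le_mul_left _ (Nat.mul_le_mul_left _ hi)
      omega
  have := key n le_rfl
  rw [h1, iterL] at this
  exact hU' _ _ (this.mono (by linarith))

theorem cpin_of_round [CompactSpace X] [ConnectedSpace X] {g : X ≃ₜ X} {c : ℝ} (h : LP g c)
    (hX : ULC X) : ∃ κ > 0, ∀ LS LU : X → X → Prop,
      (∀ x y, LS x y → SR g κ x y) → (∃ ρ > 0, ∀ x y, SR g ρ x y → LS x y) →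
      (∀ x y, LU x y → SR g.symm κ x y) → (∃ ρ > 0, ∀ x y, SR g.symm ρ x y → LU x y) →
      Rnd g LU → CPin g LS LU := by
  classical
  have hc := h.c_pos
  rcases triv_or h.symm hX with htriv | hne
  · refine ⟨c, hc, ?_⟩
    rintro LS LU hS ⟨ρs, hρs, hS'⟩ hU ⟨ρu, hρu, hU'⟩ - K
    obtain ⟨l, hl⟩ := pow_half_small (K * c) hρs
    refine ⟨0, l, 1, 0, fun x y hxy => Chain.single hxy, fun x y hxy => ?_, fun x y hxy => ?_,
      fun x y hxy => ?_⟩
    · rw [mul_one] at hxy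
      rw [zero_add]
      refine hS' _ _ (chain_contr h (hxy.mono hS) ?_)
      have := hl l le_rfl
      linarith
    · have : y = x := htriv x y (WS.of_SR (h.cU _ _ (hU x y hxy)))
      rw [this]
      exact Chain.refl _
    · rw [mul_zero] at hxy
      obtain ⟨C, h0, h1, -⟩ := hxy
      rw [← h0, ← h1]
      exact hU' _ _ (SR_refl _ hρu.le _)
  obtain ⟨κ₁, hκ₁, hκ₁c, lev⟩ := level h hX hne
  obtain ⟨κ₃, hκ₃, sb⟩ := subd h hX
  obtain ⟨κ₄, hκ₄, hmap⟩ := map_SM (g := g) (φ := g.symm)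
    (fun x => by rw [g.symm_apply_apply, g.apply_symm_apply]) κ₃ hκ₃
  obtain ⟨κu, hκu, sbu⟩ := subd h.symm hX
  obtain ⟨κ₅, hκ₅, hmapu⟩ := map_SM (g := g.symm) (φ := g)
    (fun x => by rw [g.symm_apply_apply, g.apply_symm_apply]) κu hκu
  set κ := min κ₁ (min κ₄ κ₅) with hκ
  have hκ0 : 0 < κ := by positivity
  have e1 : κ ≤ κ₁ := min_le_left _ _
  have e4 : κ ≤ κ₄ := (min_le_right _ _).trans (min_le_left _ _)
  have e5 : κ ≤ κ₅ := (min_le_right _ _).trans (min_le_right _ _)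
  have ec : κ ≤ c := by linarith
  refine ⟨κ, hκ0, ?_⟩
  rintro LS LU hS ⟨ρs, hρs, hS'⟩ hU ⟨ρu₀, hρu₀, hU₀'⟩ hR K
  set ρu := min ρu₀ κ₁ with hρu
  have hρu0 : 0 < ρu := by positivity
  have hU' : ∀ x y, SR g.symm ρu x y → LU x y := fun x y hxy =>
    hU₀' x y (hxy.mono (min_le_left _ _))
  obtain ⟨ρ', hρ', hρ'2, B, m, l₀, hB1, hlev⟩ := lev ρu hρu0 (min_le_right _ _)
  obtain ⟨Bs, hBs⟩ := sb ρs hρs
  have hBL : ∀ x y, LS x y → Chain LS Bs (g.symm x) (g.symm y) := fun x y hxy =>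
    (hBs _ _ (hmap _ _ ((hS x y hxy).mono e4))).mono hS'
  set D := Bs + 1 with hD
  have hD1 : 1 ≤ D := by omega
  have hBsD : Bs ≤ 2 ^ D := (Nat.lt_two_pow_self).le.trans (Nat.pow_le_pow_right (by norm_num)
    (by omega))
  -- constants
  set A : ℝ := 2 * K * (B : ℝ) ^ m * c / ρu with hA
  have hA0 : 0 ≤ A := by positivity
  obtain ⟨k₀, hk₀⟩ := pow_unbounded_of_one_lt (max (2 * A ^ 2) (K * c / ρs))
    (by norm_num : (1 : ℝ) < 2)
  obtain ⟨l₁, hl₁⟩ := pow_half_small c (half_pos hρu0)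
  obtain ⟨l, hlge, H₀, hH₀q, hRd₀⟩ := (frequently_atTop.mp (hR ρ' hρ' ((m + 1) * (4 * D))))
    (max (max l₀ l₁) (2 * D * (k₀ + 1)))
  have L0 : l₀ ≤ l := ((le_max_left _ _).trans (le_max_left _ _)).trans hlge
  have L1 : l₁ ≤ l := ((le_max_right _ _).trans (le_max_left _ _)).trans hlge
  have L2 : 2 * D * (k₀ + 1) ≤ l := (le_max_right _ _).trans hlge
  have hUr : ∀ x, LU x x := fun x => hU' x x (SR_refl g.symm hρu0.le x)
  -- `H ≥ 1`
  set H := max H₀ 1 with hH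
  have hH1 : 1 ≤ H := le_max_right _ _
  have hHq : H ^ ((m + 1) * (4 * D)) ≤ 2 ^ l := by
    rcases le_total H₀ 1 with h5 | h5
    · have : H = 1 := max_eq_right h5
      rw [this, one_pow]
      exact Nat.one_le_two_pow
    · have : H = H₀ := max_eq_left h5
      rw [this]
      exact hH₀q
  have hRd : Rd g LU ρ' l H := fun x y z n h5 h6 h7 h8 =>
    chain_pad hUr (hRd₀ x y z n h5 h6 h7 h8) (Nat.mul_le_mul_right _ (le_max_left _ _))
  set W := (B * H) ^ m with hW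
  have hW1 : 1 ≤ W := Nat.one_le_pow _ _ (Nat.mul_pos (by omega) (by omega))
  have hcmp := hlev LU (fun x y hxy => (hU x y hxy).mono e1) hU' l L0 H hH1 hRd
  -- the maximal outer radius
  obtain ⟨Bu, hBu⟩ := sbu ρu hρu0
  have hBLu : ∀ x y, LU x y → Chain LU Bu (g x) (g y) := fun x y hxy =>
    (hBu _ _ (hmapu _ _ ((hU x y hxy).mono e5))).mono hU'
  have hexS : ∃ S, ∀ x, Out g LU l S x :=
    ⟨Bu ^ l * 1, fun x z hxz => chain_iter g hBLu l (Chain.single hxz)⟩
  set S := Nat.find hexS with hS0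
  have hSall : ∀ x, Out g LU l S x := Nat.find_spec hexS
  have hSmin : ∀ x n, Out g LU l n x → S ≤ W * n := by
    intro x n hn
    by_contra hcon
    push Not at hcon
    have h5 : ∀ x', Out g LU l (W * n) x' := fun x' => hcmp x x' n hn
    exact absurd (Nat.find_min' hexS h5) (by omega)
  -- the inner radius
  set n₀ := max 1 ((S - 1) / (W * H)) with hn₀
  have hWH : 0 < W * H := Nat.mul_pos (by omega) (by omega)
  have hl1 : c * (1 / 2 : ℝ) ^ l ≤ ρu / 2 := hl₁ l L1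
  have hin : ∀ x y, Chain LU n₀ x y → LU (g.symm^[l] x) (g.symm^[l] y) := by
    intro x y hxy
    rcases le_total ((S - 1) / (W * H)) 1 with h5 | h5
    · have h6 : n₀ = 1 := max_eq_left h5
      rw [h6] at hxy
      obtain ⟨C, h0, h1, hC⟩ := hxy
      have h7 := hC 0 (by omega)
      rw [h0, zero_add, h1] at h7
      exact hU' _ _ ((tiny_back h hl1 ((hU _ _ h7).mono ec)).mono (by linarith))
    · have h6 : n₀ = (S - 1) / (W * H) := max_eq_right h5
      refine inner h ec hρu0 hρ'2 hU hU' hl1 hRd hSmin (n := n₀) ?_ (by rwa [iterR, iterR])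
      have h8 := Nat.div_mul_le_self (S - 1) (W * H)
      rw [← h6] at h8
      have h9 : 1 ≤ n₀ := le_max_left _ _
      have h10 : 1 ≤ n₀ * (W * H) := Nat.mul_pos h9 hWH
      have h11 : W * (H * n₀) = n₀ * (W * H) := by ring
      omega
  have hSn : S ≤ 2 * (W * H) * n₀ := by
    have h5 : S - 1 < (W * H) * (n₀ + 1) := by
      have h6 := Nat.lt_mul_div_succ (S - 1) hWH
      have h7 : (S - 1) / (W * H) ≤ n₀ := le_max_right _ _
      calc S - 1 < (W * H) * ((S - 1) / (W * H) + 1) := h6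
        _ ≤ (W * H) * (n₀ + 1) := Nat.mul_le_mul_left _ (by omega)
    have h8 : 1 ≤ n₀ := le_max_left _ _
    have h9 : (W * H) * (n₀ + 1) ≤ 2 * (W * H) * n₀ := by nlinarith
    omega
  -- the times
  set k := l / (2 * D) with hk
  have hkk : k₀ ≤ k := by
    have h5 : k₀ + 1 ≤ l / (2 * D) := by
      rw [Nat.le_div_iff_mul_le (by omega)]
      calc (k₀ + 1) * (2 * D) = 2 * D * (k₀ + 1) := by ring
        _ ≤ l := L2
    omega
  have hkl : 2 * D * k ≤ l := Nat.mul_div_le l (2 * D)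
  have hkl' : l < 2 * D * (k + 1) := Nat.lt_mul_div_succ l (by omega)
  have h2k : (2 : ℝ) ^ k₀ ≤ 2 ^ k := pow_le_pow_right₀ (by norm_num) hkk
  -- the size of `H ^ (m + 1)`
  set hh := H ^ (m + 1) with hhh
  have hh2 : hh ^ 2 ≤ 2 ^ (k + 1) := by
    have h5 : (hh ^ 2) ^ (2 * D) ≤ (2 ^ (k + 1)) ^ (2 * D) := by
      calc (hh ^ 2) ^ (2 * D) = H ^ ((m + 1) * (4 * D)) := by
            rw [hhh]; ring
        _ ≤ 2 ^ l := hHq
        _ ≤ 2 ^ (2 * D * (k + 1)) := Nat.pow_le_pow_right (by norm_num) hkl'.le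
        _ = (2 ^ (k + 1)) ^ (2 * D) := by rw [← pow_mul]; ring_nf
    exact (Nat.pow_le_pow_iff_left (by omega)).mp h5
  have hAh : A * hh ≤ 2 ^ k := by
    have h5 : (A * hh) ^ 2 ≤ ((2 : ℝ) ^ k) ^ 2 := by
      have h6 : ((hh : ℕ) : ℝ) ^ 2 ≤ 2 ^ (k + 1) := by exact_mod_cast hh2
      have h7 : 2 * A ^ 2 ≤ 2 ^ k := by
        have := (le_max_left (2 * A ^ 2) (K * c / ρs)).trans hk₀.le
        linarith
      calc (A * hh) ^ 2 = A ^ 2 * (hh : ℝ) ^ 2 := by ring
        _ ≤ A ^ 2 * 2 ^ (k + 1) := mul_le_mul_of_nonneg_left h6 (by positivity)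
        _ = (2 * A ^ 2) * 2 ^ k := by ring
        _ ≤ 2 ^ k * 2 ^ k := mul_le_mul_of_nonneg_right h7 (by positivity)
        _ = ((2 : ℝ) ^ k) ^ 2 := by ring
    exact (pow_le_pow_iff_left₀ (by positivity) (by positivity) (by norm_num)).mp h5
  refine ⟨k, l, Bs ^ k, S, fun x y hxy => ?_, fun x y hxy => ?_, fun x y hxy => hSall x y hxy,
    fun x y hxy => ?_⟩
  · have := chain_iter g.symm hBL k (Chain.single hxy)
    rwa [mul_one] at this
  · refine hS' _ _ (chain_contr h (hxy.mono fun a b hab => (hS a b hab).mono ec) ?_)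
    have h5 : ((Bs ^ k : ℕ) : ℝ) ≤ 2 ^ l := by
      have h6 : Bs ^ k ≤ 2 ^ l := by
        calc Bs ^ k ≤ (2 ^ D) ^ k := Nat.pow_le_pow_left hBsD k
          _ = 2 ^ (D * k) := (pow_mul 2 D k).symm
          _ ≤ 2 ^ l := Nat.pow_le_pow_right (by norm_num) (by nlinarith)
      exact_mod_cast h6
    have h7 : K * c / ρs ≤ 2 ^ k :=
      ((le_max_right (2 * A ^ 2) (K * c / ρs)).trans hk₀.le).trans h2k
    rw [div_le_iff₀ hρs] at h7
    have h8 : (1 / 2 : ℝ) ^ (k + l) = 1 / (2 ^ k * 2 ^ l) := by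
      rw [one_div_pow, pow_add]
    rw [h8]
    push_cast
    push_cast at h5
    have h9 : (K : ℝ) * Bs ^ k * (c * (1 / (2 ^ k * 2 ^ l))) =
        (K * c) * (Bs : ℝ) ^ k / (2 ^ k * 2 ^ l) := by ring
    rw [h9, div_le_iff₀ (by positivity)]
    calc (K * c) * (Bs : ℝ) ^ k ≤ (2 ^ k * ρs) * 2 ^ l := by
          apply mul_le_mul h7 h5 (by positivity) (by positivity)
      _ = ρs * (2 ^ k * 2 ^ l) := by ring
  · have h5 : Chain LU ((2 * K * (W * H)) * n₀) x y := by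
      refine chain_pad hUr hxy ?_
      calc K * S ≤ K * (2 * (W * H) * n₀) := Nat.mul_le_mul_left _ hSn
        _ = (2 * K * (W * H)) * n₀ := by ring
    have h6 := (chain_block _ _ h5).map (R' := LU) (g.symm^[l]) hin
    rw [Function.iterate_add_apply, Function.iterate_add_apply]
    refine hU' _ _ (chain_contr h.symm (h6.mono fun a b hab => (hU a b hab).mono ec) ?_)
    have h7 : ((2 * K * (W * H) : ℕ) : ℝ) * c / ρu = A * hh := by
      rw [hA, hW, hhh]
      push_cast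
      ring
    have h8 : ((2 * K * (W * H) : ℕ) : ℝ) * c ≤ 2 ^ k * ρu := by
      rw [← div_le_iff₀ hρu0, h7]
      exact hAh
    have h9 : ((2 * K * (W * H) : ℕ) : ℝ) * (c * (1 / 2) ^ k) =
        (((2 * K * (W * H) : ℕ) : ℝ) * c) / 2 ^ k := by
      rw [one_div_pow]; ring
    rw [h9, div_le_iff₀ (by positivity)]
    linarith

end Pool.Agent.T6.H66.QR
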